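import Pool.Agent.H15.XF.Lin

/-!
# Nef classes of numerical dimension one

`L` is a nef class with `L^2.A^2 = 0`, `L ≠ 0`. If `y` is an effective b-divisor, not zero, for which `L - y` is
nef and which has finitely many components on `X`, then a positive multiple of `L` is the class of an
effective divisor, supported by these components.
-/

namespace Pool.Agent.H59.F6

open Pool.Agent.H15.XF Pool.Agent.H15.XF.BCl

variable {r : ℕ} {B : BCl r}

/-- A linear function which is bounded above is constant. -/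
theorem lin_bdd {a b : ℝ} (h : ∀ s : ℝ, a + s * b ≤ 0) : b = 0 := by
  by_contra hb
  have h1 := h ((1 - a) / b)
  rw [div_mul_cancel₀ _ hb] at h1
  linarith

/-- **Hodge index theorem, case of equality.** -/
theorem rad {M H y : B.V} (hM : B.Nef M) (hH : B.Nef H) (hA : 0 < B.I (B.pb B.A) (B.pb B.A) M H)
    (h1 : B.I y (B.pb B.A) M H = 0) (h2 : B.I y y M H = 0) (u : B.V) : B.I y u M H = 0 := by
  have key : ∀ u, B.I u (B.pb B.A) M H = 0 → B.I y u M H = 0 := fun u hu => by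
    have h3 : 2 * B.I y u M H = 0 := lin_bdd (a := B.I u u M H) fun s => by
      have h4 := B.index M H (u + s • y) (B.pb B.A) hM hH hA (by
        rw [I1_add, I1_smul, hu, h1, mul_zero, add_zero])
      rw [I1_add, I1_smul, I2_add, I2_smul, I2_add, I2_smul, h2, B.symm12 u y] at h4
      linarith
    linarith
  have h3 := key (u - (B.I u (B.pb B.A) M H / B.I (B.pb B.A) (B.pb B.A) M H) • B.pb B.A) (by
    rw [I1_sub, I1_smul, div_mul_cancel₀ _ hA.ne', sub_self])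
  rw [I2_sub, I2_smul, h1, mul_zero, sub_zero] at h3
  exact h3

/-- A nef class `a` is at most a multiple of an ample class. -/
theorem le_ample (hA : 0 < B.I (B.pb B.A) (B.pb B.A) (B.pb B.A) (B.pb B.A)) {a : B.V}
    (ha : B.Nef a) : ∃ t : ℝ, ∀ x y z, B.Nef x → B.Nef y → B.Nef z →
      B.I a x y z ≤ t * B.I (B.pb B.A) x y z := by
  obtain ⟨t, ht, ht'⟩ : ∃ t : ℝ, 0 < t ∧
      4 * B.I (B.pb B.A) (B.pb B.A) (B.pb B.A) a <
        t * B.I (B.pb B.A) (B.pb B.A) (B.pb B.A) (B.pb B.A) := by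
    have h0 := B.nonneg _ _ _ _ B.nef_A B.nef_A B.nef_A ha
    refine ⟨4 * B.I (B.pb B.A) (B.pb B.A) (B.pb B.A) a /
      B.I (B.pb B.A) (B.pb B.A) (B.pb B.A) (B.pb B.A) + 1, by positivity, ?_⟩
    rw [add_mul, div_mul_cancel₀ _ hA.ne', one_mul]
    linarith
  refine ⟨t, fun x y z hx hy hz => ?_⟩
  obtain ⟨v, hv, h1, h2⟩ := B.siu (t • B.pb B.A) a (B.nef_smul t _ ht.le B.nef_A) ha (by
    rw [I1_smul, I2_smul, I3_smul, I1_smul, I2_smul, I3_smul, I4_smul]
    have h3 := mul_lt_mul_of_pos_left ht' (pow_pos ht 3)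
    nlinarith [h3])
  have h3 := B.eff (t • B.pb B.A - a - v) (by rw [tr_sub, tr_sub, h1, sub_self])
    (fun E => by rw [o_sub, o_sub]; linarith [h2 E]) x y z hx hy hz
  have h4 := B.nonneg v x y z hv hx hy hz
  rw [I1_sub, I1_sub, I1_smul] at h3
  linarith

/-- `L` is nef and not zero, `L^2.A^2 = 0`. -/
structure One (B : BCl r) (L : Fin r → ℝ) : Prop where
  nef : B.Nef (B.pb L)
  sq : B.I (B.pb L) (B.pb L) (B.pb B.A) (B.pb B.A) = 0
  deg : 0 < B.I (B.pb L) (B.pb B.A) (B.pb B.A) (B.pb B.A)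

namespace One

variable {L : Fin r → ℝ} (h : One B L)

include h

/-- an ample class has positive degree -/
theorem A_pos : 0 < B.I (B.pb B.A) (B.pb B.A) (B.pb B.A) (B.pb B.A) := by
  refine lt_of_le_of_ne (B.nonneg _ _ _ _ B.nef_A B.nef_A B.nef_A B.nef_A) fun h0 => ?_
  obtain ⟨t, ht⟩ := B.ample (-L)
  have h1 := B.nonneg _ _ _ _ ht B.nef_A B.nef_A B.nef_A
  have h2 : B.pb (t • B.A + -L) = t • B.pb B.A - B.pb L := by
    rw [← sub_eq_add_neg, pb_sub, pb_smul]
  rw [h2, I1_sub, I1_smul, ← h0, mul_zero, zero_sub] at h1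
  linarith [h.deg]

/-- `L^2` is numerically trivial. -/
theorem sq_A (w : B.V) : B.I w (B.pb L) (B.pb L) (B.pb B.A) = 0 := by
  have hrot : ∀ x, B.I (B.pb x) (B.pb L) (B.pb L) (B.pb B.A) =
      B.I (B.pb L) (B.pb L) (B.pb B.A) (B.pb x) := fun x => by
    rw [B.symm12, B.symm23, B.symm34]
  have key : ∀ x, 0 ≤ B.I (B.pb x) (B.pb L) (B.pb L) (B.pb B.A) := fun x => by
    obtain ⟨t, ht⟩ := B.ample x
    have h1 := B.nonneg _ _ _ _ ht h.nef h.nef B.nef_A
    rw [pb_add, pb_smul, I1_add, I1_smul, hrot B.A, h.sq, mul_zero, zero_add] at h1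
    exact h1
  rw [B.proj]
  refine le_antisymm ?_ (key _)
  have h1 := key (-B.cx w)
  have h2 : B.pb (-B.cx w) = (-1 : ℝ) • B.pb (B.cx w) := by rw [← pb_smul, neg_one_smul]
  rw [h2, I1_smul] at h1
  linarith

theorem sq_nef {a b : B.V} (ha : B.Nef a) (hb : B.Nef b) : B.I (B.pb L) (B.pb L) a b = 0 := by
  obtain ⟨t, ht⟩ := le_ample h.A_pos ha
  have h1 := ht _ _ _ h.nef h.nef hb
  have h2 := B.nonneg _ _ _ _ ha h.nef h.nef hb
  have h3 : B.I (B.pb B.A) (B.pb L) (B.pb L) b = 0 := by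
    rw [B.symm34 _ _ (B.pb L) b, B.symm23 _ (B.pb L) b, B.symm12 _ b, B.symm23 b,
      B.symm34 b (B.pb L)]
    exact h.sq_A b
  rw [h3, mul_zero] at h1
  have h4 : B.I a (B.pb L) (B.pb L) b = 0 := le_antisymm h1 h2
  rw [B.symm23, B.symm12]
  exact h4

theorem sq_zero (u w : B.V) : B.I (B.pb L) (B.pb L) u w = 0 := by
  obtain ⟨a, a', ha, ha', rfl⟩ := B.gen u
  obtain ⟨b, b', hb, hb', rfl⟩ := B.gen w
  rw [I3_sub, I4_sub, I4_sub, h.sq_nef ha hb, h.sq_nef ha hb', h.sq_nef ha' hb, h.sq_nef ha' hb']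
  simp

variable {v : B.V} (hv : Good B L v)

omit h in
include hv in
theorem eff_y {a b c : B.V} (ha : B.Nef a) (hb : B.Nef b) (hc : B.Nef c) :
    0 ≤ B.I (B.pb L - v) a b c :=
  B.eff _ (by rw [tr_sub, B.tr_pb, hv.2.1, sub_self])
    (fun E => by rw [o_sub, o_pb', zero_sub]; exact neg_nonpos.2 (hv.2.2 E)) _ _ _ ha hb hc

include hv in
theorem vL {a b : B.V} (ha : B.Nef a) (hb : B.Nef b) : B.I v (B.pb L) a b = 0 := by
  have h1 := eff_y hv h.nef ha hb
  rw [I1_sub, h.sq_zero, zero_sub] at h1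
  exact le_antisymm (by linarith) (B.nonneg _ _ _ _ hv.1 h.nef ha hb)

include hv in
theorem vv {a b : B.V} (ha : B.Nef a) (hb : B.Nef b) : B.I v v a b = 0 := by
  have h1 := eff_y hv hv.1 ha hb
  rw [I1_sub, B.symm12, h.vL hv ha hb, zero_sub] at h1
  exact le_antisymm (by linarith) (B.nonneg _ _ _ _ hv.1 hv.1 ha hb)

include hv in
theorem yL {a b : B.V} (ha : B.Nef a) (hb : B.Nef b) : B.I (B.pb L - v) (B.pb L) a b = 0 := by
  rw [I1_sub, h.sq_zero, h.vL hv ha hb, sub_zero]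

include hv in
theorem yy {a b : B.V} (ha : B.Nef a) (hb : B.Nef b) :
    B.I (B.pb L - v) (B.pb L - v) a b = 0 := by
  rw [I2_sub, h.yL hv ha hb, I1_sub, B.symm12 (B.pb L) v, h.vL hv ha hb, h.vv hv ha hb]
  simp

include hv in
/-- the effective b-divisor `y = L - v` has positive degree on `X` -/
theorem deg_y (hne : ∃ E, 0 < B.o v E) :
    0 < B.I (B.pb L - v) (B.pb B.A) (B.pb B.A) (B.pb B.A) := by
  refine lt_of_le_of_ne (eff_y hv B.nef_A B.nef_A B.nef_A) fun h0 => ?_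
  have hA := h.A_pos
  have htr : B.tr (B.pb L - v) = 0 := by rw [tr_sub, B.tr_pb, hv.2.1, sub_self]
  have ho : ∀ E, B.o (B.pb L - v) E = -B.o v E := fun E => by rw [o_sub, o_pb', zero_sub]
  have h1 : ∃ a b c, 0 < B.I (B.pb L - v) a b c :=
    B.pos _ htr (fun E => by rw [ho]; exact neg_nonpos.2 (hv.2.2 E)) fun e => by
      obtain ⟨E, hE⟩ := hne
      have h2 := ho E
      rw [e] at h2
      have h3 : B.o (0 : B.V) E = 0 := by
        have := o_smul (B := B) 0 0 E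
        simpa using this
      rw [h3] at h2
      linarith
  obtain ⟨a, b, c, h1⟩ := h1
  obtain ⟨H, hH, hHA, hs⟩ := B.strict (B.pb L - v) ⟨a, b, c, h1.ne'⟩
  -- `H - A` is nef
  have hmono : ∀ a b c, B.Nef a → B.Nef b → B.Nef c → B.I a b c (B.pb B.A) ≤ B.I a b c H :=
    fun a b c ha hb hc => by
      have h2 := B.nonneg _ _ _ _ ha hb hc hHA
      rw [I4_sub] at h2
      linarith
  have hA1 : 0 < B.I (B.pb B.A) (B.pb B.A) (B.pb B.A) H :=
    lt_of_lt_of_le hA (hmono _ _ _ B.nef_A B.nef_A B.nef_A)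
  have hA2 : 0 < B.I (B.pb B.A) (B.pb B.A) H H := by
    refine lt_of_lt_of_le ?_ (hmono _ _ _ B.nef_A B.nef_A hH)
    rw [B.symm34]
    exact hA1
  have h2 := rad B.nef_A B.nef_A hA h0.symm (h.yy hv B.nef_A B.nef_A)
  have h3 : B.I (B.pb L - v) (B.pb B.A) (B.pb B.A) H = 0 := by
    rw [B.symm34, B.symm23]
    exact h2 H
  have h4 := rad B.nef_A hH hA1 h3 (h.yy hv B.nef_A hH) H
  have h5 : B.I (B.pb L - v) (B.pb B.A) H H = 0 := by
    rw [B.symm23]
    exact h4
  have h6 := hs B.A B.nef_A hA2 h5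
  rw [h.yy hv hH hH] at h6
  exact lt_irrefl _ h6

include hv in
/-- **Proposition.** A positive multiple of `L` is effective. -/
theorem effective (hne : ∃ E, 0 < B.o v E)
    (nd : ∀ x, (∀ u, B.I (B.pb x) (B.pb u) (B.pb B.A) (B.pb B.A) = 0) → x = 0)
    (hfin : {G | B.X G ∧ B.o v G ≠ 0}.Finite) :
    ∃ lam : ℝ, 0 < lam ∧ L = ∑ G ∈ hfin.toFinset, (lam * B.o v G) • B.cl G := by
  classical
  have hy := h.deg_y hv hne
  have hL := h.deg
  set lam := B.I (B.pb L - v) (B.pb B.A) (B.pb B.A) (B.pb B.A) /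
    B.I (B.pb L) (B.pb B.A) (B.pb B.A) (B.pb B.A) with hlam
  have hlam0 : 0 < lam := div_pos hy hL
  have h1 : B.I (B.pb L - v - lam • B.pb L) (B.pb B.A) (B.pb B.A) (B.pb B.A) = 0 := by
    rw [I1_sub _ (lam • B.pb L), I1_smul, hlam, div_mul_cancel₀ _ hL.ne', sub_self]
  have h2 : B.I (B.pb L - v - lam • B.pb L) (B.pb L - v - lam • B.pb L) (B.pb B.A) (B.pb B.A) = 0 := by
    have e1 := h.yy hv B.nef_A B.nef_A
    have e2 := h.yL hv B.nef_A B.nef_A
    have e3 : B.I (B.pb L) (B.pb L - v) (B.pb B.A) (B.pb B.A) = 0 := by rw [B.symm12, e2]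
    rw [I1_sub _ (lam • B.pb L), I1_smul, I2_sub _ _ (lam • B.pb L), I2_smul,
      I2_sub _ _ (lam • B.pb L), I2_smul, e1, e2, e3, h.sq]
    simp
  have h3 := rad B.nef_A B.nef_A h.A_pos h1 h2
  have h4 : B.cx (B.pb L - v - lam • B.pb L) = 0 := nd _ fun u => by
    rw [← B.proj]
    exact h3 _
  have h5 := B.sum (B.pb L - v - lam • B.pb L)
  rw [h4, sub_zero] at h5
  have h6 : B.tr (B.pb L - v - lam • B.pb L) = -(lam • L) := by
    rw [tr_sub, tr_sub, tr_smul, B.tr_pb, hv.2.1, sub_self, zero_sub]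
  have h7 : ∀ G, B.o (B.pb L - v - lam • B.pb L) G = -B.o v G := fun G => by
    rw [o_sub, o_sub, o_smul, o_pb', mul_zero, sub_zero, zero_sub]
  rw [h6] at h5
  -- the sum is finite
  have h8 : HasSum (fun G : {G // B.X G} => B.o (B.pb L - v - lam • B.pb L) G • B.cl G)
      (∑ G ∈ hfin.toFinset.subtype B.X, B.o (B.pb L - v - lam • B.pb L) G • B.cl G) :=
    hasSum_sum_of_ne_finset_zero fun G hG => by
      rw [h7]
      have : B.o v G = 0 := by
        by_contra hne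
        exact hG (Finset.mem_subtype.2 (hfin.mem_toFinset.2 ⟨G.2, hne⟩))
      rw [this, neg_zero, zero_smul]
  have h9 := h5.unique h8
  have h10 : ∑ G ∈ hfin.toFinset.subtype B.X, B.o (B.pb L - v - lam • B.pb L) G • B.cl G =
      ∑ G ∈ hfin.toFinset, -(B.o v G • B.cl G) := by
    rw [← Finset.sum_subtype_of_mem (p := B.X) (fun G => -(B.o v G • B.cl G))
      (fun G hG => (hfin.mem_toFinset.1 hG).1)]
    exact Finset.sum_congr rfl fun G _ => by rw [h7, neg_smul]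
  rw [h10, Finset.sum_neg_distrib, neg_inj] at h9
  refine ⟨lam⁻¹, inv_pos.2 hlam0, ?_⟩
  have h11 : L = lam⁻¹ • (lam • L) := by rw [smul_smul, inv_mul_cancel₀ hlam0.ne', one_smul]
  rw [h11, h9, Finset.smul_sum]
  exact Finset.sum_congr rfl fun G _ => by rw [smul_smul]

end One

end Pool.Agent.H59.F6
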