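import Pool.Agent.H72.FB4.End
import Pool.Agent.H59.F6.Rad

/-!
# MP_5ee2d0_ag: nonvanishing for nef line bundles of numerical dimension one
-/

namespace Pool.Agent.H59.F6

open Pool.Agent.H76.F4 Pool.Agent.H15.XF Pool.Agent.H60.PF Pool.Agent.H72.FB4
open scoped BigOperators

variable {r : ℕ} {X : Var r} {B : BCl r} {L : X.P} {f : Vec r → Vec r → ℝ}

/-- If the Euler characteristic of a line bundle is not zero then one of its cohomology groups is not
zero. -/
theorem exists_h {x : X.P} (hchi : X.chi x ≠ 0) : ∃ q, q ≤ X.n ∧ X.h q x ≠ 0 := by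
  by_contra hcon
  push Not at hcon
  refine hchi ?_
  unfold Var.chi
  refine Finset.sum_eq_zero fun q hq => ?_
  rw [hcon q (Nat.lt_succ_iff.1 (Finset.mem_range.1 hq))]
  simp

/-- If the Euler characteristics are not zero then for some `q` infinitely many groups `H^q(X, L^m)` are
not zero. -/
theorem exists_q (hchi : ∀ m : ℕ, 0 < m → X.chi (m • L) ≠ 0) :
    ∃ q, q ≤ X.n ∧ ∀ N : ℕ, ∃ m : ℕ, N < m ∧ X.h q (m • L) ≠ 0 := by
  exact pigeon X.n (fun q m => X.h q (m • L) ≠ 0) fun N =>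
    ⟨N + 1, Nat.lt_succ_self N, exists_h (hchi (N + 1) (Nat.succ_pos N))⟩

/-- A current with a positive Lelong number gives a b-divisor with finitely many components on `X`. -/
theorem exists_good {x : Fin r → ℝ} (C : Cur B x) {T : C.C} {E : B.D} (hE : C.nu T E ≠ 0) :
    ∃ v, Good B x v ∧ 0 < B.o v E ∧ {G | B.X G ∧ B.o v G ≠ 0}.Finite := by
  classical
  obtain ⟨w, hw, h1⟩ := C.nef T
  have h2 : 0 < B.o w E := lt_of_le_of_ne (hw.2.2 E) (by rw [h1]; exact hE.symm)
  obtain ⟨v, hv, h3, h4, h5, h6, -⟩ := B.least x (fun F => if F = E then B.o w E else 0)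
    ⟨w, hw.1, hw.2.1, hw.2.2, fun F => by
      split_ifs with hF
      · rw [hF]
      · exact hw.2.2 F⟩
  refine ⟨v, ⟨hv, h3, h4⟩, ?_, h6 ((Set.finite_singleton E).subset fun F hF => ?_)⟩
  · have := h5 E
    rw [if_pos rfl] at this
    linarith
  · by_contra hne
    exact hF (if_neg hne)

/-- numerical dimension one -/
theorem one_of (K : Link X B) (h : X.Divisors f) (hL : X.Nef L) (hone : f (X.rl L) (X.rl L) = 0) (h0 : X.rl L ≠ 0)
    (num : ∀ x y, B.I (B.pb x) (B.pb y) (B.pb B.A) (B.pb B.A) = f x y) :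
    One B (X.rl L) where
  nef := K.nef L hL
  sq := (num _ _).trans hone
  deg := by
    have hn := K.nef L hL
    refine lt_of_le_of_ne (B.nonneg _ _ _ _ hn B.nef_A B.nef_A B.nef_A) fun h1 => ?_
    have key : ∀ x, 0 ≤ f (X.rl L) x := fun x => by
      obtain ⟨t, ht⟩ := B.ample x
      have h2 := B.nonneg _ _ _ _ hn ht B.nef_A B.nef_A
      rw [BCl.pb_add, BCl.pb_smul, BCl.I2_add, BCl.I2_smul, ← h1, mul_zero, zero_add, num] at h2
      exact h2
    have h3 := h.form.deg_pos (h.mov L hL) hone h0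
    have h4 := key (-X.num.A)
    rw [h.form.neg', h.form.symm] at h4
    linarith

/-- **Nonvanishing**, numerical dimension at most one. -/
theorem nonvanishing (K : Link X B) (h : X.Divisors f) (hL : X.Nef L) (hone : f (X.rl L) (X.rl L) = 0)
    (num : ∀ x y, B.I (B.pb x) (B.pb y) (B.pb B.A) (B.pb B.A) = f x y)
    {C : Cur B (X.rl L)} (F : X.Forms C) (hchi : ∀ m : ℕ, 0 < m → X.chi (m • L) ≠ 0) :
    ∃ m : ℕ, 0 < m ∧ X.h 0 (m • L) ≠ 0 := by
  classical
  by_cases h0 : X.rl L = 0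
  · obtain ⟨k, hk, e⟩ := h.tors L ((Var.Divisors.rl_zero_iff L).1 h0)
    exact ⟨k, hk, (h.sect _).2 ⟨0, by rw [Var.line_zero, e]⟩⟩
  refine h.effective L ?_
  by_cases hT : ∀ T E, C.nu T E = 0
  · obtain ⟨T, -⟩ := C.cur (B.pb (X.rl L)) ⟨K.nef L hL, B.tr_pb _, fun E => (BCl.o_pb' _ E).ge⟩
    obtain ⟨q, hq, hm⟩ := exists_q hchi
    obtain ⟨Q, hQ, hM⟩ := F.split h (X.n - q) (fun N => by
      obtain ⟨m, h1, h2⟩ := hm N
      obtain ⟨v, h3, h4⟩ := F.dps T (hT T) q m hq (by omega) h2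
      exact ⟨m, v, h1, h3, h4⟩)
    have hLn := h.mov L hL
    have hLQ : f (X.rl L) Q = 0 := by
      obtain ⟨M, x, _, hx, e⟩ := hM 0
      have h1 : f (X.rl L) ((M : ℝ) • X.rl L) = 0 := by
        rw [h.form.mul']
        exact mul_eq_zero_of_right _ hone
      rw [e, h.form.add'] at h1
      have h2 := h.form.mov_eff hLn hx
      have h3 := h.form.mov_psef hLn hQ
      linarith
    obtain ⟨t, z, hz, e⟩ := h.form.orth hLn hone h0 hQ hLQ
    obtain ⟨N, hN⟩ := exists_nat_gt t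
    obtain ⟨M, x, hMN, hx, e'⟩ := hM N
    have hMt : 0 < (M : ℝ) - t := by
      have : (N : ℝ) < M := by exact_mod_cast hMN
      linarith
    have e1 : ((M : ℝ) - t) • X.rl L = x + z := by
      rw [sub_smul, e', e]
      abel
    have e2 : X.rl L = ((M : ℝ) - t)⁻¹ • (x + z) := by
      rw [← e1, smul_smul, inv_mul_cancel₀ hMt.ne', one_smul]
    rw [e2]
    exact (hx.add hz).smul (inv_nonneg.2 hMt.le)
  · push Not at hT
    obtain ⟨T, E, hE⟩ := hT
    obtain ⟨v, hv, h1, hfin⟩ := exists_good C hE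
    obtain ⟨lam, hlam, e⟩ := (one_of K h hL hone h0 num).effective hv ⟨E, h1⟩ (fun x hx =>
      h.form.nd x fun u => by rw [← num]; exact hx u) hfin
    rw [e]
    refine Num.Eff.sum _ _ fun G hG => ?_
    obtain ⟨G', rfl⟩ := K.pr_onto G (hfin.mem_toFinset.1 hG).1
    rw [K.cl]
    exact (Num.Eff.cl G').smul (mul_nonneg hlam.le (hv.2.2 _))

end Pool.Agent.H59.F6
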